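import Pool.Agent.Helper78.LM.Goals

/-!
# Packets IPG and PAD: trivial machines and the padding argument
-/

namespace Pool.Agent.Helper5.LM

open Pool.Agent.Helper81.CC Pool.Agent.Helper51.ZP Pool.Agent.Helper31.TMSim
open Pool.Agent.Helper83.CL Pool.Agent.Helper78.LM Matrix Computability

/-! ### IPG -/

/-- the next state of the trivial machine -/
def nxt0 (f : List Bool → Bool) (z : View) : ℕ := if f z.1 = true then 1 else 0

theorem PT_nxt0 {f : List Bool → Bool} (hf : PolyTime f) : PolyTime (nxt0 f) := by
  unfold nxt0
  have h1 : PolyTime (fun z : View => f z.1) := PolyTime.comp hf (by fun_prop)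
  fun_prop

/-- the trivial machine -/
noncomputable def M0 (f : List Bool → Bool) (hf : PolyTime f) : LinMachine where
  T := 1
  m := 0
  w := Polynomial.C 2
  next := nxt0 f
  push _ := []
  vec _ := []
  row _ := []
  form _ := []
  reads _ := false
  next_poly := (PT_nxt0 hf).computable
  push_poly := (PolyTime.const (α := View) ([] : List ℕ)).computable
  vec_poly := (PolyTime.const (α := View) ([] : List Bool)).computable
  row_poly := (PolyTime.const (α := List Bool × ℕ × ℕ) ([] : List Bool)).computable
  form_poly := (PolyTime.const (α := List Bool × ℕ) ([] : List Bool)).computable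
  reads_poly := (PolyTime.const (α := List Bool × ℕ) false).computable
  next_lt z := by
    simp only [Polynomial.eval_C, nxt0]
    split_ifs <;> norm_num
  push_lt z s hs := by simp at hs
  push_le z := by simp

theorem M0_stages (f : List Bool → Bool) (hf : PolyTime f) (x : List Bool) :
    (M0 f hf).stages x = 1 := by
  simp [LinMachine.stages, M0]

theorem M0_step (f : List Bool → Bool) (hf : PolyTime f) (x : List Bool) (b : Bool)
    (c : Conf ((M0 f hf).dim x)) :
    ∃ c', (M0 f hf).step x 0 b c = some c' ∧ c'.q = (if f x = true then 1 else 0) ∧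
      c'.st = c.st.tail := by
  have h : (M0 f hf).value x 0 b c = 0 := by
    have : toVec ((M0 f hf).dim x) ((M0 f hf).form (x, 0)) = 0 := by
      funext i
      simp [toVec, M0]
    rw [LinMachine.value, this, zero_dotProduct]
  refine ⟨_, by rw [LinMachine.step, if_pos (Or.inr h)], ?_, ?_⟩
  · simp [M0, nxt0, LinMachine.view]
  · simp [M0]

theorem M0_accepts (f : List Bool → Bool) (hf : PolyTime f) (x : List Bool) (b : Bool) :
    (M0 f hf).Accepts x [b] ↔ f x = true := by
  obtain ⟨c', h1, h2, h3⟩ := M0_step f hf x b ⟨0, [], 0, false⟩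
  have h4 : (M0 f hf).run x 0 [b] ⟨0, [], 0, false⟩ = some c' := by
    simp only [LinMachine.run, h1]
    rfl
  constructor
  · rintro ⟨c, hc, hq, -⟩
    rw [h4, Option.some.injEq] at hc
    subst hc
    by_contra h
    rw [if_neg h] at h2
    omega
  · intro h
    exact ⟨c', h4, by rw [h2, if_pos h], by rw [h3]; rfl⟩

theorem M0_accepts' (f : List Bool → Bool) (hf : PolyTime f) (x : List Bool)
    (ρ : Fin ((M0 f hf).stages x) → Bool) :
    (M0 f hf).Accepts x (List.ofFn ρ) ↔ f x = true := by
  have hl : (List.ofFn ρ).length = 1 := by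
    rw [List.length_ofFn, M0_stages]
  obtain ⟨b, hb⟩ := List.length_eq_one_iff.1 hl
  rw [hb]
  exact M0_accepts f hf x b

theorem M0_acc_pos (f : List Bool → Bool) (hf : PolyTime f) (x : List Bool) (h : f x = true) :
    (M0 f hf).acc x = 2 := by
  rw [LinMachine.acc]
  have e : Nat.card {ρ : Fin ((M0 f hf).stages x) → Bool // (M0 f hf).Accepts x (List.ofFn ρ)} =
      Nat.card (Fin ((M0 f hf).stages x) → Bool) :=
    Nat.card_congr (Equiv.subtypeUnivEquiv fun ρ => (M0_accepts' f hf x ρ).2 h)
  rw [e, Nat.card_eq_fintype_card, Fintype.card_fun, Fintype.card_bool, Fintype.card_fin, M0_stages]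
  norm_num

theorem M0_acc_neg (f : List Bool → Bool) (hf : PolyTime f) (x : List Bool) (h : f x = false) :
    (M0 f hf).acc x = 0 := by
  rw [LinMachine.acc]
  have : IsEmpty {ρ : Fin ((M0 f hf).stages x) → Bool // (M0 f hf).Accepts x (List.ofFn ρ)} :=
    ⟨fun ρ => by
      have := (M0_accepts' f hf x ρ.1).1 ρ.2
      rw [h] at this
      exact Bool.false_ne_true this⟩
  exact Nat.card_of_isEmpty

/-- **IPG.** -/
theorem ipg : Pool.Agent.Helper78.LM.IpgStmt := by
  intro R L hL
  obtain ⟨f, hf, h⟩ := PT_of_inP hL
  refine ⟨M0 f hf, 1, fun _ => 0, (PolyTime.const (α := List Bool) (0 : ℕ)).computable, ?_, ?_, ?_⟩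
  · intro x
    have : (M0 f hf).numReads x = 0 := by
      simp [LinMachine.numReads, M0]
    omega
  · intro x hx
    rw [M0_acc_pos f hf x ((h x).1 hx), M0_stages]
    simp
  · intro x hx
    have h1 : f x = false := by
      by_contra h2
      exact hx ((h x).2 (by simpa using h2))
    rw [M0_acc_neg f hf x h1]
    simp

/-! ### PAD -/

theorem length_pairEnc (x y : List Bool) : (pairEnc x y).length = 2 * x.length + 1 + y.length := by
  have h : (x.flatMap fun b => [true, b]).length = 2 * x.length := by
    induction x with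
    | nil => rfl
    | cons a l ih => simp only [List.flatMap_cons, List.length_append, ih, List.length_cons,
        List.length_nil]; omega
  rw [pairEnc, List.length_append, h, List.length_cons]
  omega

theorem PT_pairEnc {α : Type} [ToData α] {f g : α → List Bool} (hf : PolyTime f)
    (hg : PolyTime g) : PolyTime (fun a => pairEnc (f a) (g a)) := by
  unfold pairEnc
  exact PolyTime.append (PolyTime.flatMap (f := fun _ b => [true, b]) hf (by fun_prop))
    (PolyTime.list_cons (by fun_prop) hg)

/-- the padded word -/
noncomputable def padW (P : Polynomial ℕ) (x : List Bool) : List Bool :=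
  pairEnc x (List.replicate (P.eval x.length) false)

/-- is `y` a padded word -/
noncomputable def okP (P : Polynomial ℕ) (y : List Bool) : Bool :=
  decide (y = padW P (unpairL y).1)

/-- the word which is padded -/
noncomputable def argP (P : Polynomial ℕ) (y : List Bool) : List Bool :=
  if okP P y = true then (unpairL y).1 else []

theorem PT_padW (P : Polynomial ℕ) {α : Type} [ToData α] {f : α → List Bool} (hf : PolyTime f) :
    PolyTime (fun a => padW P (f a)) := by
  unfold padW
  refine PT_pairEnc hf ?_
  have h1 : PolyTime (fun a => P.eval (f a).length) := PT_eval P (by fun_prop)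
  fun_prop

theorem PT_okP (P : Polynomial ℕ) : PolyTime (okP P) := by
  unfold okP
  have h1 : PolyTime (fun y : List Bool => (unpairL y).1) :=
    PolyTime.fst PT_unpairL
  have h2 : PolyTime (fun y : List Bool => padW P (unpairL y).1) := PT_padW P h1
  fun_prop

theorem PT_argP (P : Polynomial ℕ) : PolyTime (argP P) := by
  unfold argP
  have h1 : PolyTime (fun y : List Bool => (unpairL y).1) :=
    PolyTime.fst PT_unpairL
  have h2 := PT_okP P
  fun_prop

theorem length_padW (P : Polynomial ℕ) (x : List Bool) :
    (padW P x).length = 2 * x.length + 1 + P.eval x.length := by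
  rw [padW, length_pairEnc, List.length_replicate]

theorem okP_padW (P : Polynomial ℕ) (x : List Bool) : okP P (padW P x) = true := by
  have h : (unpairL (padW P x)).1 = x := by rw [padW, unpairL_pairEnc]
  rw [okP, h]
  simp

theorem argP_padW (P : Polynomial ℕ) (x : List Bool) : argP P (padW P x) = x := by
  rw [argP, if_pos (okP_padW P x), padW, unpairL_pairEnc]

theorem okP_length {P : Polynomial ℕ} {y : List Bool} (h : okP P y = true) :
    y.length = 2 * (argP P y).length + 1 + P.eval (argP P y).length := by
  have h1 : y = padW P (unpairL y).1 := by simpa [okP] using h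
  have h2 : argP P y = (unpairL y).1 := by rw [argP, if_pos h]
  rw [h2, ← length_padW, ← h1]

theorem argP_length (P : Polynomial ℕ) (y : List Bool) : (argP P y).length ≤ y.length := by
  by_cases h : okP P y = true
  · have := okP_length h
    omega
  · rw [argP, if_neg h]
    simp

/-- **PAD.** -/
theorem pad : Pool.Agent.Helper78.LM.PadStmt := by
  intro hyp k hk hP L hL hLc
  obtain ⟨T1, h1⟩ := hyp L hL
  obtain ⟨T2, h2⟩ := hyp Lᶜ hLc
  have hle : ∀ y, okP ((T1 + T2) ^ k) y = true →
      (T1.eval (argP ((T1 + T2) ^ k) y).length) ^ k ≤ y.length ∧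
      (T2.eval (argP ((T1 + T2) ^ k) y).length) ^ k ≤ y.length := by
    intro y hy
    have h3 := okP_length hy
    rw [Polynomial.eval_pow, Polynomial.eval_add] at h3
    have h4 : (T1.eval (argP ((T1 + T2) ^ k) y).length) ^ k ≤
        (T1.eval (argP ((T1 + T2) ^ k) y).length + T2.eval (argP ((T1 + T2) ^ k) y).length) ^ k :=
      Nat.pow_le_pow_left (by omega) k
    have h5 : (T2.eval (argP ((T1 + T2) ^ k) y).length) ^ k ≤
        (T1.eval (argP ((T1 + T2) ^ k) y).length + T2.eval (argP ((T1 + T2) ^ k) y).length) ^ k :=
      Nat.pow_le_pow_left (by omega) k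
    omega
  have a1 := h1 k (okP ((T1 + T2) ^ k)) (argP ((T1 + T2) ^ k)) false hk (PT_okP _) (PT_argP _)
    (argP_length _) (fun y hy => (hle y hy).1)
  have a2 := h2 k (okP ((T1 + T2) ^ k)) (argP ((T1 + T2) ^ k)) true hk (PT_okP _) (PT_argP _)
    (argP_length _) (fun y hy => (hle y hy).2)
  have e : {y | if okP ((T1 + T2) ^ k) y = true then argP ((T1 + T2) ^ k) y ∈ Lᶜ
        else true = true} =
      {y | if okP ((T1 + T2) ^ k) y = true then argP ((T1 + T2) ^ k) y ∈ L
        else false = true}ᶜ := by
    ext y
    simp only [Set.mem_ofPred_eq, Set.mem_compl_iff]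
    by_cases hy : okP ((T1 + T2) ^ k) y = true
    · simp only [if_pos hy]
    · simp only [if_neg hy]
      simp
  rw [e] at a2
  obtain ⟨f, hf, h⟩ := PT_of_inP (hP _ a1 a2)
  refine inP_of_PT (f := fun x => f (padW ((T1 + T2) ^ k) x))
    (PolyTime.comp hf (PT_padW _ (by fun_prop))) fun x => ?_
  rw [← h]
  simp only [Set.mem_ofPred_eq]
  rw [if_pos (okP_padW _ x), argP_padW]

end Pool.Agent.Helper5.LM
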